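import Mathlib

/-!
There is no nonprincipal ultrafilter `p` on the positive integers with `E₂(p,p) = p`.

Method: find maps `F`, `G` with `G (F (m ^ n)) = F n` for `p`-most `n` and `p`-most `m`, where `G`
lowers a natural-number measure; the parity of the number of descending steps is a colouring that
separates `n` from `m ^ n`.
-/

namespace Pool.Agent.Results.MP_36fb0d_co.NoExpIdempotent

open Filter

/-- number of steps along which `G` lowers `μ` -/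
noncomputable def depth {X : Type} (G : X → X) (μ : X → ℕ) (x : X) : ℕ :=
  if μ (G x) < μ x then depth G μ (G x) + 1 else 0
termination_by μ x

lemma residue (U : Ultrafilter ℕ) (f : ℕ → ℕ) (k : ℕ) (hk : 0 < k) :
    ∃ r, ∀ᶠ x in (U : Filter ℕ), f x % k = r := by
  have h : Set.Iio k ∈ U.map (fun x => f x % k) := by
    rw [Ultrafilter.mem_map]
    exact Filter.univ_mem' (fun x => Nat.mod_lt _ hk)
  obtain ⟨r, -, hr⟩ := Ultrafilter.eq_pure_of_finite_mem (Set.finite_Iio k) h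
  refine ⟨r, ?_⟩
  have : ({r} : Set ℕ) ∈ U.map (fun x => f x % k) := by
    rw [hr]; simp
  exact this

lemma key (U : Ultrafilter ℕ)
    (H : ∀ P : ℕ → Prop, (∀ᶠ x in (U : Filter ℕ), P x) →
      ∀ᶠ n in (U : Filter ℕ), ∀ᶠ m in (U : Filter ℕ), P (m ^ n))
    {X : Type} (F : ℕ → X) (G : X → X) (μ : X → ℕ)
    (h : ∀ᶠ n in (U : Filter ℕ), ∀ᶠ m in (U : Filter ℕ),
      G (F (m ^ n)) = F n ∧ μ (F n) < μ (F (m ^ n))) : False := by
  obtain ⟨r, hr⟩ := residue U (fun x => depth G μ (F x)) 2 (by norm_num)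
  have h2 := H _ hr
  obtain ⟨n, hn1, hn2, hn3⟩ := (hr.and (h.and h2)).exists
  obtain ⟨m, ⟨hm1, hm2⟩, hm3⟩ := (hn2.and hn3).exists
  rw [depth, hm1, if_pos hm2] at hm3
  omega

lemma even_case (U : Ultrafilter ℕ)
    (H : ∀ P : ℕ → Prop, (∀ᶠ x in (U : Filter ℕ), P x) →
      ∀ᶠ n in (U : Filter ℕ), ∀ᶠ m in (U : Filter ℕ), P (m ^ n))
    (hpos : ∀ᶠ x in (U : Filter ℕ), x ≠ 0) (hev : ∀ᶠ x in (U : Filter ℕ), 2 ∣ x) : False := by
  have hv : ∀ᶠ x in (U : Filter ℕ), x ≠ 0 ∧ padicValNat 2 x ≠ 0 := by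
    filter_upwards [hpos, hev] with x h1 h2
    refine ⟨h1, ?_⟩
    have := one_le_padicValNat_of_dvd h1 h2
    omega
  choose c hc using fun j : ℕ =>
    residue U (fun x => padicValNat 2 (padicValNat 2 x)) (2 ^ (j + 1)) (by positivity)
  apply key U H (fun x => padicValNat 2 (padicValNat 2 x))
    (fun a => sInf {j | a % 2 ^ (j + 1) ≠ c j}) id
  filter_upwards [hv] with n hn
  have hall : ∀ᶠ m in (U : Filter ℕ), ∀ j ∈ Finset.range (padicValNat 2 (padicValNat 2 n) + 1),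
      padicValNat 2 (padicValNat 2 m) % 2 ^ (j + 1) = c j :=
    (Filter.eventually_all_finset _).mpr (fun j _ => hc j)
  filter_upwards [hv, hall] with m hm hm2
  have e1 : padicValNat 2 (padicValNat 2 (m ^ n)) =
      padicValNat 2 n + padicValNat 2 (padicValNat 2 m) := by
    rw [padicValNat.pow m n, padicValNat.mul hn.1 hm.2]
  rw [e1]
  set V := padicValNat 2 n with hV
  set J := padicValNat 2 V with hJ
  set u := padicValNat 2 (padicValNat 2 m) with hu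
  have hJV : J < V := by
    have h1 : 2 ^ J ∣ V := pow_padicValNat_dvd
    have h2 := Nat.le_of_dvd (Nat.pos_of_ne_zero hn.2) h1
    have h3 : J < 2 ^ J := Nat.lt_two_pow_self
    omega
  refine ⟨?_, by simp only [id]; omega⟩
  have hmem : J ∈ {j | (V + u) % 2 ^ (j + 1) ≠ c j} := by
    intro h
    rw [← hm2 J (by simp)] at h
    have h1 : V + u ≡ 0 + u [MOD 2 ^ (J + 1)] := by simpa [Nat.ModEq] using h
    have h2 := Nat.ModEq.add_right_cancel' u h1
    exact pow_succ_padicValNat_not_dvd hn.2 ((Nat.modEq_zero_iff_dvd).mp h2)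
  apply le_antisymm (Nat.sInf_le hmem)
  by_contra hlt
  push Not at hlt
  have h3 := Nat.sInf_mem ⟨J, hmem⟩
  set j := sInf {j | (V + u) % 2 ^ (j + 1) ≠ c j} with hj
  apply h3
  rw [← hm2 j (by simp; omega)]
  have h4 : 2 ^ (j + 1) ∣ V := (pow_dvd_pow 2 hlt).trans pow_padicValNat_dvd
  obtain ⟨s, hs⟩ := h4
  rw [hs, Nat.mul_add_mod]

/-- 2-adic valuation of `x ^ 2 - 1` -/
def b (x : ℕ) : ℕ := padicValNat 2 (x ^ 2 - 1)
/-- odd part of `x ^ 2 - 1` -/
def y (x : ℕ) : ℕ := (x ^ 2 - 1) / 2 ^ b x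

lemma by_eq {x k o : ℕ} (h : x ^ 2 = 2 ^ k * o + 1) (ho : Odd o) : b x = k ∧ y x = o := by
  have h1 : x ^ 2 - 1 = 2 ^ k * o := by omega
  have ho0 : o ≠ 0 := by rintro rfl; simp at ho
  have hb : b x = k := by
    rw [b, h1, padicValNat.mul (by positivity) ho0, padicValNat.prime_pow,
      padicValNat.eq_zero_of_not_dvd, add_zero]
    exact fun h2 => (Nat.not_even_iff_odd.mpr ho) (even_iff_two_dvd.mpr h2)
  refine ⟨hb, ?_⟩
  rw [y, hb, h1, Nat.mul_div_cancel_left _ (by positivity)]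

lemma decomp {x : ℕ} (hx : 1 < x) : x ^ 2 = 2 ^ b x * y x + 1 ∧ Odd (y x) := by
  have h0 : x ^ 2 - 1 ≠ 0 := by
    have : 1 < x ^ 2 := by nlinarith
    omega
  obtain ⟨k, o, ho, h⟩ := Nat.exists_eq_two_pow_mul_odd h0
  have h1 : x ^ 2 = 2 ^ k * o + 1 := by omega
  obtain ⟨h2, h3⟩ := by_eq h1 ho
  rw [h2, h3]
  exact ⟨h1, ho⟩

lemma le_b {x k : ℕ} (hx : 1 < x) (h : x ^ 2 ≡ 1 [MOD 2 ^ k]) : k ≤ b x := by
  have h0 : x ^ 2 - 1 ≠ 0 := by
    have : 1 < x ^ 2 := by nlinarith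
    omega
  have h1 : 2 ^ k ∣ x ^ 2 - 1 := (Nat.modEq_iff_dvd' (by nlinarith)).mp h.symm
  exact (padicValNat_dvd_iff_le h0).mp h1

lemma binom (t n : ℕ) : ∃ s, (t + 1) ^ n = t * (n + t * s) + 1 := by
  induction n with
  | zero => exact ⟨0, by simp⟩
  | succ n ih =>
    obtain ⟨s, hs⟩ := ih
    exact ⟨s + n + t * s, by rw [pow_succ, hs]; ring⟩

lemma pow_by {m n : ℕ} (hm : 1 < m) (hb : 1 ≤ b m) (hn : Odd n) :
    b (m ^ n) = b m ∧ y (m ^ n) ≡ n * y m [MOD 2 ^ b m] := by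
  obtain ⟨h1, h2⟩ := decomp hm
  obtain ⟨s, hs⟩ := binom (2 ^ b m * y m) n
  have h3 : (m ^ n) ^ 2 = 2 ^ b m * (y m * (n + 2 ^ b m * y m * s)) + 1 := by
    rw [← pow_mul, mul_comm n 2, pow_mul, h1, hs]; ring
  have h4 : Odd (y m * (n + 2 ^ b m * y m * s)) := by
    apply h2.mul
    apply hn.add_even
    have : Even (2 ^ b m) := (Nat.even_pow.mpr ⟨even_two, by omega⟩)
    exact (this.mul_right _).mul_right _
  obtain ⟨h5, h6⟩ := by_eq h3 h4
  refine ⟨h5, ?_⟩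
  rw [h6]
  have : y m * (n + 2 ^ b m * y m * s) = n * y m + 2 ^ b m * (y m * y m * s) := by ring
  rw [this]
  simp [Nat.ModEq]

lemma loc_const {n z : ℕ} (hn : 1 < n) (hb : 1 ≤ b n) (h : z ≡ n [MOD 2 ^ (2 * b n + 1)]) :
    b z = b n ∧ y z % 2 ^ b z = y n % 2 ^ b n := by
  obtain ⟨h1, h2⟩ := decomp hn
  have h3 : z ^ 2 ≡ 2 ^ b n * y n + 1 [MOD 2 ^ (2 * b n + 1)] := h1 ▸ h.pow 2
  have hz : z ^ 2 ≠ 0 := by
    intro h0
    rw [h0] at h3
    have h4 : 2 ^ (2 * b n + 1) ∣ n ^ 2 := by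
      rw [h1]; exact (Nat.modEq_zero_iff_dvd).mp h3.symm
    have h5 : 2 ∣ n ^ 2 := (dvd_pow_self 2 (by omega)).trans h4
    have h6 : 2 ∣ 2 ^ b n * y n := (dvd_pow_self 2 (by omega)).mul_right _
    omega
  obtain ⟨t, ht⟩ := Nat.exists_eq_succ_of_ne_zero hz
  rw [ht] at h3
  have h4 : t ≡ 2 ^ b n * y n [MOD 2 ^ b n * 2 ^ (b n + 1)] := by
    have := Nat.ModEq.add_right_cancel' 1 h3
    rwa [show 2 * b n + 1 = b n + (b n + 1) by ring, pow_add] at this
  have h5 : 2 ^ b n ∣ t := by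
    have := h4.of_mul_right
    rw [← Nat.modEq_zero_iff_dvd]
    exact this.trans ((Nat.modEq_zero_iff_dvd).mpr (dvd_mul_right _ _))
  obtain ⟨o, ho⟩ := h5
  rw [ho] at h4
  have h6 := Nat.ModEq.mul_left_cancel' (by positivity) h4
  have h7 : Odd o := by
    have := h6.of_dvd (dvd_pow_self 2 (by omega : b n + 1 ≠ 0))
    rw [Nat.odd_iff] at h2 ⊢
    exact Eq.trans this h2
  obtain ⟨h8, h9⟩ := by_eq (x := z) (k := b n) (o := o) (by rw [ht, ho]) h7
  refine ⟨h8, ?_⟩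
  rw [h8, h9]
  exact h6.of_dvd (pow_dvd_pow 2 (by omega))

lemma odd_case (U : Ultrafilter ℕ)
    (H : ∀ P : ℕ → Prop, (∀ᶠ x in (U : Filter ℕ), P x) →
      ∀ᶠ n in (U : Filter ℕ), ∀ᶠ m in (U : Filter ℕ), P (m ^ n))
    (hone : ∀ᶠ x in (U : Filter ℕ), 1 < x) (hodd : ∀ᶠ x in (U : Filter ℕ), Odd x) : False := by
  choose c hc using fun j : ℕ => residue U y (2 ^ j) (by positivity)
  have hco : ∀ (x j : ℕ), 1 < x → Nat.Coprime (2 ^ j) (y x) := fun x j hx =>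
    Nat.Coprime.pow_left j ((Nat.coprime_two_left).mpr (decomp hx).2)
  -- the valuations `b x` tend to infinity along `U`
  have hb : ∀ k : ℕ, ∀ᶠ x in (U : Filter ℕ), k + 1 ≤ b x := by
    intro k
    induction k with
    | zero =>
      filter_upwards [hone, hodd] with x h1 h2
      apply le_b h1
      obtain ⟨s, rfl⟩ := h2
      have : (2 * s + 1) ^ 2 = 1 + 2 ^ (0 + 1) * (2 * s ^ 2 + 2 * s) := by ring
      rw [this]; simp [Nat.ModEq]
    | succ k ih =>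
      filter_upwards [hone, hodd, H _ (hc (k + 1))] with n h1 h2 h3
      obtain ⟨m, ⟨⟨m1, m2⟩, m3⟩, m4⟩ := (((hone.and ih).and (hc (k + 1))).and h3).exists
      have e1 := (pow_by m1 (by omega) h2).2.of_dvd (pow_dvd_pow 2 m2)
      have e2 : n * y m ≡ 1 * y m [MOD 2 ^ (k + 1)] := by
        rw [one_mul]
        exact e1.symm.trans (m4.trans m3.symm)
      have e3 := Nat.ModEq.cancel_right_of_coprime (hco m (k + 1) m1) e2
      apply le_b h1
      obtain ⟨s, hs⟩ := (Nat.modEq_iff_dvd' h1.le).mp e3.symm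
      have e4 : n = 1 + 2 ^ (k + 1) * s := by omega
      have : n ^ 2 = 1 + 2 ^ (k + 1 + 1) * (s + 2 ^ k * s ^ 2) := by rw [e4]; ring
      rw [this]; simp [Nat.ModEq]
  -- inverses of the limit of the odd parts
  have hinv : ∀ j : ℕ, ∃ e : ℕ, ∀ J ≤ j, c J * e ≡ 1 [MOD 2 ^ J] := by
    intro j
    have hall : ∀ᶠ x in (U : Filter ℕ), ∀ J ∈ Finset.range (j + 1), y x % 2 ^ J = c J :=
      (Filter.eventually_all_finset _).mpr (fun J _ => hc J)
    obtain ⟨x, x1, x2⟩ := (hone.and hall).exists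
    obtain ⟨e, -, he⟩ := Nat.exists_mul_mod_eq_one_of_coprime (hco x (j + 1) x1).symm
      (Nat.one_lt_two_pow (by omega))
    refine ⟨e, fun J hJ => ?_⟩
    rw [← x2 J (by simp; omega)]
    have h1 : y x * e ≡ 1 [MOD 2 ^ (j + 1)] := by
      rw [Nat.ModEq, he, Nat.mod_eq_of_lt (Nat.one_lt_two_pow (by omega))]
    exact ((Nat.mod_modEq _ _).mul_right e).trans (h1.of_dvd (pow_dvd_pow 2 (by omega)))
  choose e he using hinv
  apply key U H (fun x => (b x, y x % 2 ^ b x))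
    (fun a => (b (a.2 * e a.1), y (a.2 * e a.1) % 2 ^ b (a.2 * e a.1))) Prod.fst
  filter_upwards [hone, hodd, hb 0] with n n1 n2 n3
  filter_upwards [hone, hb (2 * b n), hc (2 * b n + 1)] with m m1 m2 m3
  obtain ⟨p1, p2⟩ := pow_by m1 (by omega) n2
  refine ⟨?_, by omega⟩
  have hz : y (m ^ n) % 2 ^ b (m ^ n) * e (b (m ^ n)) ≡ n [MOD 2 ^ (2 * b n + 1)] := by
    rw [p1]
    have q1 : y (m ^ n) % 2 ^ b m ≡ n * c (2 * b n + 1) [MOD 2 ^ (2 * b n + 1)] := by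
      refine (((Nat.mod_modEq _ _).trans p2).of_dvd (pow_dvd_pow 2 m2)).trans ?_
      rw [← m3]
      exact ((Nat.mod_modEq _ _).symm).mul_left n
    have q2 := (he (b m) (2 * b n + 1) m2).mul_left n
    rw [mul_one, ← mul_assoc] at q2
    exact (q1.mul_right _).trans q2
  obtain ⟨r1, r2⟩ := loc_const n1 n3 hz
  exact Prod.ext r1 r2

theorem result (p : Ultrafilter ℕ+)
    (h : ∀ A : Set ℕ+, A ∈ p ↔ {n : ℕ+ | {m : ℕ+ | m ^ (n : ℕ) ∈ A} ∈ p} ∈ p) :
    ∃ n : ℕ+, p = pure n := by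
  by_contra hne
  let U : Ultrafilter ℕ := p.map (fun n => (n : ℕ))
  have H : ∀ P : ℕ → Prop, (∀ᶠ x in (U : Filter ℕ), P x) →
      ∀ᶠ n in (U : Filter ℕ), ∀ᶠ m in (U : Filter ℕ), P (m ^ n) := by
    intro P hP
    have h1 : {x : ℕ+ | P x} ∈ p := hP
    have h2 := (h _).mp h1
    simp only [Set.mem_ofPred_eq, PNat.pow_coe] at h2
    exact h2
  have hone : ∀ᶠ x in (U : Filter ℕ), 1 < x := by
    have h1 : ({1} : Set ℕ+) ∉ p := by
      intro h1
      obtain ⟨x, -, hx⟩ := Ultrafilter.eq_pure_of_finite_mem (Set.finite_singleton 1) h1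
      exact hne ⟨x, hx⟩
    have h2 := Ultrafilter.compl_mem_iff_notMem.mpr h1
    change {x : ℕ+ | 1 < (x : ℕ)} ∈ (p : Filter ℕ+)
    refine Filter.mem_of_superset (show ({1} : Set ℕ+)ᶜ ∈ (p : Filter ℕ+) from h2) ?_
    intro x hx
    have h3 : (x : ℕ) ≠ 1 := fun h3 => hx (PNat.eq h3)
    have h4 := x.pos
    change 1 < (x : ℕ)
    omega
  rcases U.em (fun x => Odd x) with h1 | h1
  · exact odd_case U H hone h1
  · refine even_case U H (hone.mono fun x hx => by omega) (h1.mono fun x hx => ?_)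
    exact even_iff_two_dvd.mp (Nat.not_odd_iff_even.mp hx)

end Pool.Agent.Results.MP_36fb0d_co.NoExpIdempotent
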